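import Mathlib
import Pool.Agent.Y248.FD.Stm
import Pool.Agent.Y350.FC.SP
import Pool.Agent.Y363.FC.SL
set_option autoImplicit false

/-! # Project FD: averages in the first coordinates (helper261) -/

namespace Pool.Agent.Y261.FD

open MeasureTheory Set Metric Complex Filter
open scoped ENNReal RealInnerProductSpace Topology FourierTransform ComplexConjugate
open Pool.Agent.H789R2.FR (E sg T sg_finite polar cap_upper cap_meas)
open Pool.Agent.H438R2.RZ (Bump)
open Pool.Agent.Y248.BA (mu mu_bdd mu_supp mu_cont mu_comp four_eq four_bdd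
  four_cont ae_unit ball_vol)
open Pool.Agent.Y248.FB Pool.Agent.Y248.FC Pool.Agent.Y248.FD
open Pool.Agent.Y350.FC (kb kb_int kb_norm kb_one kb_four vol_pos)
open Pool.Agent.Y363.FC (ee es es_fun es_cont es_mp es_inner es_norm es_le1 es_le2 cyl_eq prod_fin)

/-- the volume of the intersection of a thin shell and a small ball -/
theorem shell_ball' (n : ℕ) (hn : 2 ≤ n) : ∃ C : ℝ, 0 < C ∧ ∀ a b : ℝ, 1 / 2 ≤ a → a ≤ b → b ≤ 1 →
    ∀ r : ℝ, 0 < r → ∀ ξ : E n,
    (volume : Measure (E n)) ({ζ : E n | a ≤ ‖ζ‖ ∧ ‖ζ‖ ≤ b} ∩ closedBall ξ r) ≤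
      ENNReal.ofReal (C * (b - a) * r ^ (n - 1)) := by
  have := sg_finite n
  obtain ⟨C, hC, hcap⟩ := cap_upper n hn
  refine ⟨C * 9 ^ (n - 1), by positivity, fun a b hal hab hb r hr ξ => ?_⟩
  set S : Set (E n) := {ζ : E n | a ≤ ‖ζ‖ ∧ ‖ζ‖ ≤ b} ∩ closedBall ξ r with hS
  have hSm : MeasurableSet S :=
    ((measurableSet_le measurable_const measurable_norm).inter
      (measurableSet_le measurable_norm measurable_const)).inter isClosed_closedBall.measurableSet
  rcases S.eq_empty_or_nonempty with h0 | ⟨ζ₀, hζ₀⟩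
  · rw [h0, measure_empty]; exact zero_le
  obtain ⟨⟨ha1, ha2⟩, ha3⟩ := hζ₀
  have ha0 : 1 / 2 ≤ ‖ζ₀‖ := by linarith
  have ha : 0 < ‖ζ₀‖ := by linarith
  set w₀ : E n := ‖ζ₀‖⁻¹ • ζ₀ with hw₀
  have hw₀1 : ‖w₀‖ = 1 := by
    rw [hw₀, norm_smul, norm_inv, norm_norm, inv_mul_cancel₀ ha.ne']
  have haw : ‖ζ₀‖ • w₀ = ζ₀ := by
    rw [hw₀, smul_smul, mul_inv_cancel₀ ha.ne', one_smul]
  set Cp : Set (E n) := {w | ‖w₀ - w‖ < 9 * r} with hCp
  have hCpm : MeasurableSet Cp := cap_meas _ _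
  rw [← lintegral_indicator_one hSm, polar (by omega) _ (measurable_one.indicator hSm)]
  have h1 : ∀ᵐ w ∂(sg n), (∫⁻ s in Ioi (0 : ℝ), ENNReal.ofReal (s ^ (n - 1)) *
      S.indicator (1 : E n → ℝ≥0∞) (s • w)) ≤
        Cp.indicator (fun _ => ENNReal.ofReal (b - a)) w := by
    filter_upwards [ae_unit n] with w hw
    calc (∫⁻ s in Ioi (0 : ℝ), ENNReal.ofReal (s ^ (n - 1)) *
        S.indicator (1 : E n → ℝ≥0∞) (s • w))
        ≤ ∫⁻ s in Icc a b, Cp.indicator (fun _ => (1 : ℝ≥0∞)) w := by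
          rw [← lintegral_indicator measurableSet_Ioi, ← lintegral_indicator measurableSet_Icc]
          refine lintegral_mono fun s => ?_
          by_cases hs : s ∈ Ioi (0 : ℝ)
          · rw [indicator_of_mem hs]
            have hs0 : (0 : ℝ) < s := hs
            have hnorm : ‖s • w‖ = s := by rw [norm_smul, hw, mul_one, Real.norm_of_nonneg hs0.le]
            by_cases hmem : s • w ∈ S
            · obtain ⟨⟨hb1, hb2⟩, hb3⟩ := hmem
              rw [hnorm] at hb1 hb2
              have hd : ‖ζ₀ - s • w‖ ≤ 2 * r := by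
                rw [mem_closedBall, dist_eq_norm] at ha3 hb3
                calc ‖ζ₀ - s • w‖ = ‖(ζ₀ - ξ) - (s • w - ξ)‖ := by congr 1; abel
                  _ ≤ ‖ζ₀ - ξ‖ + ‖s • w - ξ‖ := norm_sub_le _ _
                  _ ≤ 2 * r := by linarith
              have hd2 : |s - ‖ζ₀‖| ≤ 2 * r := by
                have h2 := abs_norm_sub_norm_le ζ₀ (s • w)
                rw [hnorm, abs_sub_comm] at h2
                exact h2.trans hd
              have hd3 : ‖ζ₀‖ * ‖w₀ - w‖ ≤ 4 * r := by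
                calc ‖ζ₀‖ * ‖w₀ - w‖ = ‖‖ζ₀‖ • (w₀ - w)‖ := by rw [norm_smul, norm_norm]
                  _ = ‖(ζ₀ - s • w) + (s - ‖ζ₀‖) • w‖ := by
                    congr 1
                    rw [smul_sub, haw, sub_smul]
                    abel
                  _ ≤ ‖ζ₀ - s • w‖ + ‖(s - ‖ζ₀‖) • w‖ := norm_add_le _ _
                  _ ≤ 4 * r := by
                    rw [norm_smul, hw, mul_one, Real.norm_eq_abs]
                    linarith
              have hwC : w ∈ Cp := by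
                change ‖w₀ - w‖ < 9 * r
                nlinarith [norm_nonneg (w₀ - w)]
              rw [indicator_of_mem (show s ∈ Icc a b from ⟨hb1, hb2⟩),
                indicator_of_mem hwC]
              calc ENNReal.ofReal (s ^ (n - 1)) * S.indicator (1 : E n → ℝ≥0∞) (s • w) ≤
                  1 * 1 := by
                    refine mul_le_mul' ?_ (indicator_le_self' (fun _ _ => zero_le) _)
                    rw [← ENNReal.ofReal_one]
                    exact ENNReal.ofReal_le_ofReal (pow_le_one₀ hs0.le (hb2.trans hb))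
                _ = 1 := one_mul _
            · rw [indicator_of_notMem hmem, mul_zero]
              exact zero_le
          · rw [indicator_of_notMem hs]
            exact zero_le
      _ = Cp.indicator (fun _ => ENNReal.ofReal (b - a)) w := by
          rw [setLIntegral_const, Real.volume_Icc]
          by_cases hw : w ∈ Cp
          · rw [indicator_of_mem hw, indicator_of_mem hw, one_mul]
          · rw [indicator_of_notMem hw, indicator_of_notMem hw, zero_mul]
  refine (lintegral_mono_ae h1).trans ?_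
  rw [lintegral_indicator_const hCpm]
  have h3 : (sg n) Cp ≤ ENNReal.ofReal (C * (9 * r) ^ (n - 1)) := by
    have h4 := hcap (9 * r) (by positivity) w₀ hw₀1
    rw [← ENNReal.ofReal_toReal (measure_ne_top (sg n) Cp)]
    exact ENNReal.ofReal_le_ofReal h4
  refine (mul_le_mul' le_rfl h3).trans ?_
  rw [← ENNReal.ofReal_mul (by linarith)]
  refine ENNReal.ofReal_le_ofReal (le_of_eq ?_)
  rw [mul_pow]
  ring

variable {m : ℕ}

theorem hd_es (a : E m) (b : E 1) : hd m (es m 1 (a, b)) = a := by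
  rw [es_fun]
  change (ee m 1 ((ee m 1).symm (a, b))).1 = a
  rw [ContinuousLinearEquiv.apply_symm_apply]

theorem pr_es (a : E m) (b : E 1) : pr m (es m 1 (a, b)) = b := by
  rw [es_fun]
  change (ee m 1 ((ee m 1).symm (a, b))).2 = b
  rw [ContinuousLinearEquiv.apply_symm_apply]

theorem es_hp (x : E (m + 1)) : es m 1 (hd m x, pr m x) = x := by
  rw [es_fun]
  change (ee m 1).symm (ee m 1 x) = x
  rw [ContinuousLinearEquiv.symm_apply_apply]

theorem hd_sub (x y : E (m + 1)) : hd m (x - y) = hd m x - hd m y := by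
  change (ee m 1 (x - y)).1 = (ee m 1 x).1 - (ee m 1 y).1
  rw [map_sub]
  rfl

theorem pr_sub (x y : E (m + 1)) : pr m (x - y) = pr m x - pr m y := by
  change (ee m 1 (x - y)).2 = (ee m 1 x).2 - (ee m 1 y).2
  rw [map_sub]
  rfl

theorem norm_hp (x : E (m + 1)) : ‖x‖ ^ 2 = ‖hd m x‖ ^ 2 + ‖pr m x‖ ^ 2 := by
  conv_lhs => rw [← es_hp x]
  rw [es_norm]

theorem hd_cont : Continuous (hd m : E (m + 1) → E m) :=
  continuous_fst.comp (ee m 1).continuous

theorem pr_cont : Continuous (pr m : E (m + 1) → E 1) :=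
  continuous_snd.comp (ee m 1).continuous

/-- the embedding of the first coordinates -/
noncomputable def io (z : E m) : E (m + 1) := es m 1 (z, 0)

theorem hd_io (z : E m) : hd m (io z) = z := hd_es z 0

theorem pr_io (z : E m) : pr m (io z) = 0 := pr_es z 0

theorem io_norm (z : E m) : ‖io z‖ = ‖z‖ := by
  have h := norm_hp (io z)
  rw [hd_io, pr_io, norm_zero] at h
  have h2 : ‖io z‖ ^ 2 = ‖z‖ ^ 2 := by rw [h]; ring
  exact (sq_eq_sq₀ (norm_nonneg _) (norm_nonneg _)).1 h2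

theorem io_cont : Continuous (io : E m → E (m + 1)) :=
  es_cont.comp (by fun_prop)

theorem io_inner (z : E m) (w : E (m + 1)) : ⟪io z, w⟫ = ⟪z, hd m w⟫ := by
  conv_lhs => rw [← es_hp w]
  rw [io, es_inner, inner_zero_left, add_zero]

/-- convolution in the first coordinates -/
noncomputable def cw (k : E m → ℂ) (f : E (m + 1) → ℂ) (ξ : E (m + 1)) : ℂ :=
  ∫ t, k t * f (ξ - io t)

theorem cw_integrand {k : E m → ℂ} {f : E (m + 1) → ℂ} (hk : Integrable k) (hf : Integrable f) :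
    Integrable (fun z : E (m + 1) × E m => k z.2 * f (z.1 - io z.2))
      ((volume : Measure (E (m + 1))).prod volume) := by
  have h1 : MeasurePreserving (fun p : E m × E (m + 1) => (p.1, p.2 - io p.1))
      ((volume : Measure (E m)).prod (volume : Measure (E (m + 1))))
      ((volume : Measure (E m)).prod (volume : Measure (E (m + 1)))) := by
    refine MeasurePreserving.skew_product (f := id) (g := fun a x => x - io a)
      (MeasurePreserving.id _) ?_ (Eventually.of_forall fun a => ?_)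
    · exact (continuous_snd.sub (io_cont.comp continuous_fst)).measurable
    · exact (measurePreserving_sub_right volume (io a)).map_eq
  have h2 : Integrable (fun p : E m × E (m + 1) => k p.1 * f p.2)
      ((volume : Measure (E m)).prod (volume : Measure (E (m + 1)))) := hk.mul_prod hf
  have h3 := (h1.integrable_comp h2.aestronglyMeasurable).2 h2
  exact h3.swap

theorem cw_int {k : E m → ℂ} {f : E (m + 1) → ℂ} (hk : Integrable k) (hf : Integrable f) :
    Integrable (cw k f) :=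
  (cw_integrand hk hf).integral_prod_left

theorem four_cw {k : E m → ℂ} {f : E (m + 1) → ℂ} (hk : Integrable k) (hf : Integrable f)
    (w : E (m + 1)) : 𝓕 (cw k f) w = 𝓕 k (hd m w) * 𝓕 f w := by
  have hprod : Integrable (fun z : E (m + 1) × E m =>
      cexp (((-2 * Real.pi * ⟪z.1, w⟫ : ℝ) : ℂ) * I) * (k z.2 * f (z.1 - io z.2)))
      ((volume : Measure (E (m + 1))).prod volume) := by
    refine (cw_integrand hk hf).bdd_mul (c := 1) ?_ (Eventually.of_forall fun z => ?_)
    · apply Continuous.aestronglyMeasurable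
      fun_prop
    · rw [Complex.norm_exp_ofReal_mul_I]
  rw [four_eq]
  have e1 : ∀ ξ, cexp (((-2 * Real.pi * ⟪ξ, w⟫ : ℝ) : ℂ) * I) * cw k f ξ =
      ∫ t, cexp (((-2 * Real.pi * ⟪ξ, w⟫ : ℝ) : ℂ) * I) * (k t * f (ξ - io t)) := by
    intro ξ
    unfold cw
    rw [integral_const_mul]
  simp only [e1]
  rw [integral_integral_swap hprod, four_eq k, ← integral_mul_const]
  congr 1; funext t
  rw [four_eq f]
  have e2 : ∀ ξ, cexp (((-2 * Real.pi * ⟪ξ, w⟫ : ℝ) : ℂ) * I) * (k t * f (ξ - io t)) =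
      (cexp (((-2 * Real.pi * ⟪t, hd m w⟫ : ℝ) : ℂ) * I) * k t) *
        (cexp (((-2 * Real.pi * ⟪ξ - io t, w⟫ : ℝ) : ℂ) * I) * f (ξ - io t)) := by
    intro ξ
    have e3 : (((-2 * Real.pi * ⟪ξ, w⟫ : ℝ) : ℂ) * I) =
        (((-2 * Real.pi * ⟪t, hd m w⟫ : ℝ) : ℂ) * I) +
          (((-2 * Real.pi * ⟪ξ - io t, w⟫ : ℝ) : ℂ) * I) := by
      rw [inner_sub_left, io_inner]
      push_cast; ring
    rw [e3, Complex.exp_add]
    ring
  simp only [e2]
  rw [integral_const_mul]
  congr 1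
  exact integral_sub_right_eq_self
    (fun ξ => cexp (((-2 * Real.pi * ⟪ξ, w⟫ : ℝ) : ℂ) * I) * f ξ) (io t)

theorem cw_bdd {k : E m → ℂ} {f : E (m + 1) → ℂ} (hk : Integrable k) (hk1 : ∫ t, ‖k t‖ = 1)
    {M : ℝ} (hf : ∀ ξ, ‖f ξ‖ ≤ M) (ξ : E (m + 1)) : ‖cw k f ξ‖ ≤ M := by
  unfold cw
  refine (norm_integral_le_of_norm_le (hk.norm.mul_const M) (Eventually.of_forall fun t => ?_)).trans
    (le_of_eq ?_)
  · rw [norm_mul]
    exact mul_le_mul_of_nonneg_left (hf _) (norm_nonneg _)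
  · rw [integral_mul_const, hk1, one_mul]

theorem cw_supp {r : ℝ} {f : E (m + 1) → ℂ} {ξ : E (m + 1)} (h : cw (kb r) f ξ ≠ 0) :
    ∃ t : E m, ‖t‖ ≤ r ∧ f (ξ - io t) ≠ 0 := by
  by_contra hc
  push Not at hc
  apply h
  unfold cw
  have : ∀ t, kb r t * f (ξ - io t) = 0 := by
    intro t
    by_cases ht : t ∈ closedBall (0 : E m) r
    · rw [hc t (mem_closedBall_zero_iff.1 ht), mul_zero]
    · have h0 : kb (n := m) r t = 0 := indicator_of_notMem ht _
      rw [h0, zero_mul]
  simp only [this, integral_zero]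

/-- the average of a bounded function carried by a shell -/
theorem cw_shell (hm : 2 ≤ m) : ∃ C : ℝ, 0 < C ∧ ∀ (A : ℝ), 4 ≤ A → ∀ r : ℝ, 0 < r →
    ∀ (f : E (m + 1) → ℂ) (B : ℝ), 0 ≤ B → (∀ ξ, ‖f ξ‖ ≤ B) →
    (∀ ξ, f ξ ≠ 0 → 1 - 2 / A ≤ ‖ξ‖ ^ 2 ∧ ‖ξ‖ ≤ 1 ∧ ‖pr m ξ‖ ≤ 1 / 4) →
    ∀ ξ, ‖cw (kb r) f ξ‖ ≤ C * B / (A * r) := by
  obtain ⟨C, hC, hs⟩ := shell_ball' m hm
  obtain ⟨V, hV, hVb⟩ := ball_vol m
  refine ⟨2 * C / V, by positivity, fun A hA r hr f B hB0 hB hf ξ => ?_⟩
  have hA0 : 0 < A := by linarith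
  have h2A : 2 / A ≤ 1 / 2 := by
    rw [div_le_div_iff₀ hA0 (by norm_num)]; linarith
  have h2A0 : 0 < 2 / A := by positivity
  rcases lt_or_ge (1 / 4) ‖pr m ξ‖ with hp | hp
  · have h0 : cw (kb r) f ξ = 0 := by
      by_contra hc
      obtain ⟨t, -, h2⟩ := cw_supp hc
      have h3 := (hf _ h2).2.2
      rw [pr_sub, pr_io, sub_zero] at h3
      linarith
    rw [h0, norm_zero]
    positivity
  have hv : (volume : Measure (E m)).real (closedBall (0 : E m) r) = V * r ^ m := by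
    rw [Measure.real, hVb 0 r hr.le, ENNReal.toReal_ofReal (by positivity)]
  obtain ⟨τ, hτ⟩ : ∃ τ : ℝ, τ = ‖pr m ξ‖ := ⟨_, rfl⟩
  have hτ0 : 0 ≤ τ := by rw [hτ]; exact norm_nonneg _
  rw [← hτ] at hp
  have hτ2 : τ ^ 2 ≤ 1 / 16 := by nlinarith
  obtain ⟨a, ha⟩ : ∃ a : ℝ, a = Real.sqrt (1 - τ ^ 2 - 2 / A) := ⟨_, rfl⟩
  obtain ⟨b, hb⟩ : ∃ b : ℝ, b = Real.sqrt (1 - τ ^ 2) := ⟨_, rfl⟩
  have ha2 : a ^ 2 = 1 - τ ^ 2 - 2 / A := by
    rw [ha, Real.sq_sqrt]
    linarith
  have hb2 : b ^ 2 = 1 - τ ^ 2 := by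
    rw [hb, Real.sq_sqrt]
    linarith
  have ha0 : 0 ≤ a := by rw [ha]; exact Real.sqrt_nonneg _
  have hb0 : 0 ≤ b := by rw [hb]; exact Real.sqrt_nonneg _
  have hah : 1 / 2 ≤ a := by
    refine le_of_sq_le_sq ?_ ha0
    rw [ha2]
    norm_num
    linarith
  have hab : a ≤ b := by
    refine le_of_sq_le_sq ?_ hb0
    rw [ha2, hb2]
    linarith
  have hb1 : b ≤ 1 := by
    refine le_of_sq_le_sq ?_ (by norm_num)
    rw [hb2]
    nlinarith
  have hba : b - a ≤ 2 / A := by
    have h1 : (b - a) * (b + a) = 2 / A := by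
      have : (b - a) * (b + a) = b ^ 2 - a ^ 2 := by ring
      rw [this, ha2, hb2]
      ring
    nlinarith
  set S : Set (E m) := {ζ : E m | a ≤ ‖ζ‖ ∧ ‖ζ‖ ≤ b} ∩ closedBall (hd m ξ) r with hS
  have hSm : MeasurableSet S :=
    ((measurableSet_le measurable_const measurable_norm).inter
      (measurableSet_le measurable_norm measurable_const)).inter isClosed_closedBall.measurableSet
  have h1 : ‖cw (kb r) f ξ‖ₑ ≤ ENNReal.ofReal (2 * C * B / (V * (A * r))) := by
    unfold cw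
    refine (enorm_integral_le_lintegral_enorm _).trans ?_
    have h2 : ∫⁻ t, ‖kb r t * f (ξ - io t)‖ₑ = ∫⁻ s, ‖kb r (hd m ξ - s) *
        f (ξ - io (hd m ξ - s))‖ₑ :=
      (lintegral_sub_left_eq_self (fun t => ‖kb r t * f (ξ - io t)‖ₑ) (hd m ξ)).symm
    rw [h2]
    calc ∫⁻ s, ‖kb r (hd m ξ - s) * f (ξ - io (hd m ξ - s))‖ₑ ≤
        ∫⁻ s, S.indicator (fun _ => ENNReal.ofReal ((V * r ^ m)⁻¹ * B)) s := by
          refine lintegral_mono fun s => ?_
          by_cases h3 : hd m ξ - s ∈ closedBall (0 : E m) r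
          · by_cases h4 : f (ξ - io (hd m ξ - s)) = 0
            · rw [h4, mul_zero, enorm_zero]; exact zero_le
            · have hsS : s ∈ S := by
                obtain ⟨g1, g2, -⟩ := hf _ h4
                have g3 : ‖ξ - io (hd m ξ - s)‖ ^ 2 = ‖s‖ ^ 2 + τ ^ 2 := by
                  rw [norm_hp, hd_sub, pr_sub, hd_io, pr_io, sub_sub_cancel, sub_zero, hτ]
                have g4 : ‖ξ - io (hd m ξ - s)‖ ^ 2 ≤ 1 := by
                  have := norm_nonneg (ξ - io (hd m ξ - s))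
                  nlinarith
                rw [g3] at g1 g4
                refine ⟨⟨?_, ?_⟩, ?_⟩
                · refine le_of_sq_le_sq ?_ (norm_nonneg _)
                  rw [ha2]
                  linarith
                · refine le_of_sq_le_sq ?_ hb0
                  rw [hb2]
                  linarith
                · rw [mem_closedBall_zero_iff] at h3
                  rw [mem_closedBall, dist_eq_norm, norm_sub_rev]
                  exact h3
              rw [indicator_of_mem hsS, ← ofReal_norm]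
              refine ENNReal.ofReal_le_ofReal ?_
              rw [norm_mul]
              refine mul_le_mul ?_ (hB _) (norm_nonneg _) (by positivity)
              unfold kb
              rw [indicator_of_mem h3, Complex.norm_real, hv, Real.norm_of_nonneg (by positivity)]
          · have h0 : kb (n := m) r (hd m ξ - s) = 0 := indicator_of_notMem h3 _
            rw [h0, zero_mul, enorm_zero]; exact zero_le
      _ = ENNReal.ofReal ((V * r ^ m)⁻¹ * B) * volume S := lintegral_indicator_const hSm _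
      _ ≤ ENNReal.ofReal ((V * r ^ m)⁻¹ * B) * ENNReal.ofReal (C * (b - a) * r ^ (m - 1)) :=
          mul_le_mul' le_rfl (hs a b hah hab hb1 r hr (hd m ξ))
      _ ≤ ENNReal.ofReal ((V * r ^ m)⁻¹ * B) * ENNReal.ofReal (C * (2 / A) * r ^ (m - 1)) := by
          refine mul_le_mul' le_rfl (ENNReal.ofReal_le_ofReal ?_)
          gcongr
      _ = _ := by
          rw [← ENNReal.ofReal_mul (by positivity)]
          congr 1
          have e3 : r ^ m = r ^ (m - 1) * r := by
            rw [← pow_succ, Nat.sub_add_cancel (by omega)]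
          rw [e3]
          field_simp
  rw [← ofReal_norm, ENNReal.ofReal_le_ofReal_iff (by positivity)] at h1
  refine h1.trans (le_of_eq ?_)
  field_simp

/-- iterated averages -/
noncomputable def Qj (r : ℝ) (q : E (m + 1) → ℂ) (i : ℕ) : E (m + 1) → ℂ := (cw (kb r))^[i] q

theorem Qj_succ (r : ℝ) (q : E (m + 1) → ℂ) (i : ℕ) : Qj r q (i + 1) = cw (kb r) (Qj r q i) :=
  Function.iterate_succ_apply' _ _ _

theorem Qj_int (r : ℝ) {q : E (m + 1) → ℂ} (hq : Integrable q) (i : ℕ) :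
    Integrable (Qj r q i) := by
  induction i with
  | zero => exact hq
  | succ i ih => rw [Qj_succ]; exact cw_int (kb_int r) ih

theorem Qj_four (r : ℝ) {q : E (m + 1) → ℂ} (hq : Integrable q) (i : ℕ) (w : E (m + 1)) :
    𝓕 (Qj r q i) w = 𝓕 (kb r) (hd m w) ^ i * 𝓕 q w := by
  induction i with
  | zero => rw [pow_zero, one_mul]; rfl
  | succ i ih => rw [Qj_succ, four_cw (kb_int r) (Qj_int r hq i), ih]; ring

theorem Qj_supp (r : ℝ) {q : E (m + 1) → ℂ} (i : ℕ) (ξ : E (m + 1)) (h : Qj r q i ξ ≠ 0) :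
    ∃ ζ, q ζ ≠ 0 ∧ ‖ξ - ζ‖ ≤ i * r ∧ pr m ζ = pr m ξ := by
  induction i generalizing ξ with
  | zero => exact ⟨ξ, h, by simp, rfl⟩
  | succ i ih =>
    rw [Qj_succ] at h
    obtain ⟨t, ht, h1⟩ := cw_supp h
    obtain ⟨ζ, hζ, h2, h3⟩ := ih (ξ - io t) h1
    refine ⟨ζ, hζ, ?_, ?_⟩
    · calc ‖ξ - ζ‖ = ‖(ξ - io t - ζ) + io t‖ := by congr 1; abel
        _ ≤ ‖ξ - io t - ζ‖ + ‖io t‖ := norm_add_le _ _
        _ ≤ i * r + r := add_le_add h2 (by rw [io_norm]; exact ht)
        _ = ((i + 1 : ℕ) : ℝ) * r := by push_cast; ring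
    · rw [h3, pr_sub, pr_io, sub_zero]

theorem Qj_bdd {r : ℝ} (hr : 0 < r) {q : E (m + 1) → ℂ} {M : ℝ}
    (h1 : ∀ ξ, ‖Qj r q 1 ξ‖ ≤ M) (i : ℕ) (ξ : E (m + 1)) : ‖Qj r q (i + 1) ξ‖ ≤ M := by
  induction i generalizing ξ with
  | zero => exact h1 ξ
  | succ i ih => rw [Qj_succ]; exact cw_bdd (kb_int r) (kb_norm hr) ih ξ

/-- the elementary inequality for the remainder -/
theorem rem_ineq' {n : ℕ} {a : ℝ} (ha : 0 ≤ a) (han : a ≤ n) {l : ℝ} (hl : 1 ≤ l) (u : ℝ)
    (hu : 0 ≤ u) : (1 + u) ^ (-a) * (min 2 (u / l)) ^ n ≤ 2 ^ n * l ^ (-a) := by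
  have hl0 : 0 < l := by linarith
  have hmin0 : 0 ≤ min 2 (u / l) := le_min (by norm_num) (by positivity)
  rcases le_total l u with h | h
  · have h1 : (1 + u) ^ (-a) ≤ l ^ (-a) :=
      Real.rpow_le_rpow_of_nonpos hl0 (by linarith) (by linarith)
    have h2 : (min 2 (u / l)) ^ n ≤ 2 ^ n := pow_le_pow_left₀ hmin0 (min_le_left _ _) n
    calc (1 + u) ^ (-a) * (min 2 (u / l)) ^ n ≤ l ^ (-a) * 2 ^ n := by gcongr
      _ = _ := mul_comm _ _
  · have h1 : (min 2 (u / l)) ^ n ≤ (u / l) ^ a := by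
      have hul : u / l ≤ 1 := by rw [div_le_one hl0]; exact h
      calc (min 2 (u / l)) ^ n ≤ (u / l) ^ n := pow_le_pow_left₀ hmin0 (min_le_right _ _) n
        _ = (u / l) ^ (n : ℝ) := (Real.rpow_natCast _ _).symm
        _ ≤ (u / l) ^ a :=
          Real.rpow_le_rpow_of_exponent_ge' (by positivity) hul ha han
    have h2 : (u / l) ^ a ≤ (1 + u) ^ a * l ^ (-a) := by
      rw [Real.div_rpow hu hl0.le, Real.rpow_neg hl0.le, div_eq_mul_inv]
      gcongr
      linarith
    have h3 : (1 + u) ^ (-a) * (1 + u) ^ a = 1 := by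
      rw [← Real.rpow_add (by positivity), neg_add_cancel, Real.rpow_zero]
    have h4 : (1 : ℝ) ≤ 2 ^ n := one_le_pow₀ (by norm_num)
    calc (1 + u) ^ (-a) * (min 2 (u / l)) ^ n ≤
        (1 + u) ^ (-a) * ((1 + u) ^ a * l ^ (-a)) := by
          gcongr
          exact h1.trans h2
      _ = ((1 + u) ^ (-a) * (1 + u) ^ a) * l ^ (-a) := by ring
      _ = 1 * l ^ (-a) := by rw [h3]
      _ ≤ _ := by gcongr

end Pool.Agent.Y261.FD
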