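import Mathlib
import Pool.Agent.Y261.FD.Cw
set_option autoImplicit false

/-! # Project FD: splitting near the equator (helper261) -/

namespace Pool.Agent.Y261.FD

open MeasureTheory Set Metric Complex Filter
open scoped ENNReal RealInnerProductSpace Topology FourierTransform ComplexConjugate
open Pool.Agent.H789R2.FR (E sg T sg_finite polar cap_upper cap_meas)
open Pool.Agent.H438R2.RZ (Bump)
open Pool.Agent.Y248.BA (mu mu_bdd mu_supp mu_cont mu_comp four_eq four_bdd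
  four_cont ae_unit ball_vol)
open Pool.Agent.Y248.FB Pool.Agent.Y248.FC Pool.Agent.Y248.FD
open Pool.Agent.Y350.FC (kb kb_int kb_norm kb_one kb_four vol_pos en_id fm_le)
open Pool.Agent.Y363.FC (ee es es_fun es_cont es_mp es_inner es_norm es_le1 es_le2 cyl_eq prod_fin)

variable {m : ℕ}

theorem cyl_fin {ν : Measure (E 1)} {β K₀ : ℝ} (hν : LD β K₀ ν) (R : ℝ) :
    cyl m ν (closedBall 0 R) < ∞ := by
  have h1 : ∀ (t : E 1) (r : ℝ), ν (closedBall t r) < ∞ := by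
    intro t r
    refine (measure_mono (closedBall_subset_closedBall (le_max_left r 1))).trans_lt ?_
    exact (hν t _ (le_max_right _ _)).trans_lt ENNReal.ofReal_lt_top
  have h2 := prod_fin (m := m) h1 R
  rw [cyl_eq, Measure.map_apply es_cont.measurable isClosed_closedBall.measurableSet]
  exact h2

theorem bump_sq {ψ : ℝ → ℝ} (hψ : Bump ψ) : Bump (fun s => ψ s ^ 2) :=
  ⟨hψ.1.pow 2, fun v hv => hψ.2 v fun h => hv (by simp only [h]; norm_num)⟩

theorem cut_sq {θ : ℝ → ℝ} (hθ : Cut θ) : Cut (fun s => θ s ^ 2) :=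
  ⟨hθ.1.pow 2, fun s hs => by simp only [hθ.2 s hs]; norm_num⟩

theorem cut_bdd {θ : ℝ → ℝ} (hθ : Cut θ) : ∃ M : ℝ, 0 < M ∧ ∀ s, 0 ≤ s → |θ s| ≤ M := by
  obtain ⟨M, hM⟩ := (isCompact_Icc (a := (0 : ℝ)) (b := 2)).exists_bound_of_continuousOn
    hθ.1.continuous.continuousOn
  refine ⟨max M 1, by positivity, fun s hs => ?_⟩
  rcases le_or_gt s 2 with h | h
  · exact (hM s ⟨hs, h⟩).trans (le_max_left _ _)
  · rw [hθ.2 s h.le, abs_zero]
    positivity

theorem pm_cont {ψ θ : ℝ → ℝ} (hψ : Bump ψ) (hθ : Cut θ) (A l : ℝ) :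
    Continuous (pm m ψ θ A l) := by
  unfold pm
  refine (mu_cont hψ A 1).mul (Complex.continuous_ofReal.comp (hθ.1.continuous.comp ?_))
  exact ((pr_cont.norm).pow 2).div_const _

theorem pm_int {ψ θ : ℝ → ℝ} (hψ : Bump ψ) (hθ : Cut θ) {A : ℝ} (hA : 0 < A) (l : ℝ) :
    Integrable (pm m ψ θ A l) :=
  (pm_cont hψ hθ A l).integrable_of_hasCompactSupport
    ((mu_comp hψ hA one_pos one_le_two).mul_right)

theorem pm_sq (ψ θ : ℝ → ℝ) (A l : ℝ) (ξ : E (m + 1)) :
    pm m (fun s => ψ s ^ 2) (fun s => θ s ^ 2) A l ξ = ((‖pm m ψ θ A l ξ‖ ^ 2 : ℝ) : ℂ) := by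
  unfold pm mu
  rw [norm_mul, Complex.norm_real, Complex.norm_real, mul_pow, Real.norm_eq_abs, Real.norm_eq_abs,
    sq_abs, sq_abs]
  push_cast
  ring

theorem pm_loc {ψ θ : ℝ → ℝ} (hψ : Bump ψ) (hθ : Cut θ) {A l : ℝ} (hA : 4 ≤ A) (hl : 0 < l)
    {ξ : E (m + 1)} (h : pm m ψ θ A l ξ ≠ 0) : (1 - 2 / A ≤ ‖ξ‖ ^ 2 ∧ ‖ξ‖ ≤ 1) ∧
      ‖pr m ξ‖ ≤ 2 * l ∧ θ (‖pr m ξ‖ ^ 2 / l ^ 2) ≠ 0 := by
  have hA0 : 0 < A := by linarith
  have h0 : mu ψ A 1 ξ ≠ 0 := fun h1 => h (by unfold pm; rw [h1, zero_mul])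
  have hθ0 : θ (‖pr m ξ‖ ^ 2 / l ^ 2) ≠ 0 := fun h1 => h (by
    unfold pm; rw [h1, Complex.ofReal_zero, mul_zero])
  obtain ⟨h1, h2⟩ := mu_supp hψ hA0 one_pos ξ h0
  rw [one_pow, one_mul] at h1 h2
  have h3 : 0 < 1 / (2 * A) := by positivity
  have h4 : ‖ξ‖ ≤ 1 := by
    refine le_of_sq_le_sq ?_ (by norm_num)
    linarith
  refine ⟨⟨h1, h4⟩, ?_, hθ0⟩
  have h5 : ‖pr m ξ‖ ^ 2 / l ^ 2 < 2 := by
    by_contra hc
    push Not at hc
    exact hθ0 (hθ.2 _ hc)
  rw [div_lt_iff₀ (by positivity)] at h5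
  refine le_of_sq_le_sq ?_ (by positivity)
  nlinarith [sq_nonneg l]

theorem t_spl (m : ℕ) (hm : 2 ≤ m) : S_KL m → S_GA m → S_SPL m := by
  intro hKL hGA ψ θ hψ hθ β K₀ hβ0 hβ1 hK
  set ψ2 : ℝ → ℝ := fun s => ψ s ^ 2 with hψ2d
  set θ2 : ℝ → ℝ := fun s => θ s ^ 2 with hθ2d
  have hψ2 : Bump ψ2 := bump_sq hψ
  have hθ2 : Cut θ2 := cut_sq hθ
  obtain ⟨CK, hCK, hkl⟩ := hKL ψ2 θ2 hψ2 hθ2
  obtain ⟨CG, hCG, hga⟩ := hGA
  obtain ⟨B1, hB1, hB1b⟩ := mu_bdd hψ2
  obtain ⟨B2, hB2, hB2b⟩ := cut_bdd hθ2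
  obtain ⟨CS, hCS, hsh⟩ := cw_shell hm
  have hm0 : (0 : ℝ) < m := by exact_mod_cast (by omega : 0 < m)
  have hm2 : (2 : ℝ) ≤ m := by exact_mod_cast hm
  obtain ⟨Ca, hCa⟩ : ∃ Ca : ℝ, Ca = CK * 2 ^ m := ⟨_, rfl⟩
  obtain ⟨Cb, hCb⟩ : ∃ Cb : ℝ, Cb = 2 ^ m * (CS * (B1 * B2) * (10 * m)) * (CG * K₀ * 3) :=
    ⟨_, rfl⟩
  have hCa0 : 0 < Ca := by rw [hCa]; positivity
  have hCb0 : 0 ≤ Cb := by rw [hCb]; positivity
  refine ⟨Ca + Cb, by positivity, fun ν hν A l hAdm r hr hrA g hg => ?_⟩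
  obtain ⟨hA, hl0, hl8, hAl, hθc⟩ := hAdm
  have hA0 : 0 < A := by linarith
  have hr0 : 0 < r := by linarith
  have hg' := hg
  obtain ⟨hgm, ⟨M, hM⟩, ρ, hρ⟩ := hg'
  set μ : Measure (E (m + 1)) := cyl m ν with hμ
  set μ' : Measure (E (m + 1)) := μ.restrict (closedBall 0 ρ) with hμ'
  have hμf : IsFiniteMeasure μ' :=
    ⟨by rw [hμ', Measure.restrict_apply_univ]; exact cyl_fin hν ρ⟩
  have hFm : ∀ ξ, Fm g μ ξ = Fm g μ' ξ := by
    intro ξ
    unfold Fm
    exact (setIntegral_eq_integral_of_forall_compl_eq_zero fun x hx => by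
      rw [hρ x hx, zero_mul]).symm
  have hi1 : ∫⁻ x, ‖g x‖ₑ ∂μ = ∫⁻ x, ‖g x‖ₑ ∂μ' := by
    rw [hμ', ← lintegral_indicator isClosed_closedBall.measurableSet]
    refine lintegral_congr fun x => ?_
    by_cases hx : x ∈ closedBall (0 : E (m + 1)) ρ
    · rw [indicator_of_mem hx]
    · rw [indicator_of_notMem hx, hρ x hx, enorm_zero]
  have hFmeas : Measurable (Fm g μ') := by
    have h2 : Measurable fun z : E (m + 1) × E (m + 1) => g z.2 *
        cexp (((2 * Real.pi * ⟪z.2, z.1⟫ : ℝ) : ℂ) * I) := by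
      have h1 : Continuous fun z : E (m + 1) × E (m + 1) =>
          cexp (((2 * Real.pi * ⟪z.2, z.1⟫ : ℝ) : ℂ) * I) := by
        fun_prop
      exact (hgm.comp measurable_snd).mul h1.measurable
    exact (h2.stronglyMeasurable.integral_prod_right' (ν := μ')).measurable
  set q : E (m + 1) → ℂ := pm m ψ2 θ2 A l with hq
  have hqi : Integrable q := pm_int hψ2 hθ2 hA0 l
  set s : ℝ := 1 / (10 * m * r) with hs
  have hs0 : 0 < s := by positivity
  -- the energies of the averages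
  set J : ℕ → ℂ := fun i => ∫ ξ, Qj s q i ξ * (Fm g μ' ξ * conj (Fm g μ' ξ)) with hJ
  set P : ℂ := ∫ z : E (m + 1) × E (m + 1), g z.1 * conj (g z.2) *
    ((1 - 𝓕 (kb s) (hd m (z.2 - z.1))) ^ m * 𝓕 q (z.2 - z.1)) ∂(μ'.prod μ') with hP
  have hsum : ∑ i ∈ Finset.range (m + 1), ((-1) ^ i * (m.choose i : ℂ)) * J i = P := by
    have e1 : ∀ i, ((-1) ^ i * (m.choose i : ℂ)) * J i = ∫ z : E (m + 1) × E (m + 1),
        ((-1) ^ i * (m.choose i : ℂ)) * (g z.1 * conj (g z.2) *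
          (𝓕 (kb s) (hd m (z.2 - z.1)) ^ i * 𝓕 q (z.2 - z.1))) ∂(μ'.prod μ') := by
      intro i
      rw [integral_const_mul, hJ]
      simp only
      rw [en_id μ' (Qj_int s hqi i) hgm hM]
      simp only [Qj_four s hqi i]
    have hint : ∀ i ∈ Finset.range (m + 1), Integrable (fun z : E (m + 1) × E (m + 1) =>
        ((-1) ^ i * (m.choose i : ℂ)) * (g z.1 * conj (g z.2) *
          (𝓕 (kb s) (hd m (z.2 - z.1)) ^ i * 𝓕 q (z.2 - z.1)))) (μ'.prod μ') := by
      intro i _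
      refine Integrable.const_mul ?_ _
      have hc : Continuous fun z : E (m + 1) × E (m + 1) =>
          𝓕 (kb s) (hd m (z.2 - z.1)) ^ i * 𝓕 q (z.2 - z.1) :=
        ((four_cont (kb_int s)).comp (hd_cont.comp (continuous_snd.sub continuous_fst))).pow i
          |>.mul ((four_cont hqi).comp (continuous_snd.sub continuous_fst))
      have hm : Measurable fun z : E (m + 1) × E (m + 1) => g z.1 * conj (g z.2) :=
        (hgm.comp measurable_fst).mul (Complex.continuous_conj.measurable.comp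
          (hgm.comp measurable_snd))
      refine Integrable.of_bound (C := |M| * |M| * ((∫ x, ‖kb (n := m) s x‖) ^ i * ∫ x, ‖q x‖))
        (hm.mul hc.measurable).aestronglyMeasurable (Eventually.of_forall fun z => ?_)
      rw [norm_mul, norm_mul, norm_mul, norm_pow, RCLike.norm_conj]
      have h1 : ∀ x, ‖g x‖ ≤ |M| := fun x => (hM x).trans (le_abs_self M)
      have h2 : 0 ≤ ∫ x, ‖q x‖ := integral_nonneg fun x => norm_nonneg _
      have h3 : 0 ≤ ∫ x, ‖kb (n := m) s x‖ := integral_nonneg fun x => norm_nonneg _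
      have h4 := four_bdd (kb (n := m) s) (hd m (z.2 - z.1))
      have h5 := four_bdd q (z.2 - z.1)
      exact mul_le_mul (mul_le_mul (h1 _) (h1 _) (norm_nonneg _) (abs_nonneg _))
        (mul_le_mul (pow_le_pow_left₀ (norm_nonneg _) h4 i) h5 (norm_nonneg _) (by positivity))
        (by positivity) (by positivity)
    rw [Finset.sum_congr rfl fun i _ => e1 i, ← integral_finsetSum _ hint, hP]
    refine integral_congr_ae (Eventually.of_forall fun z => ?_)
    simp only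
    have e2 : (1 - 𝓕 (kb s) (hd m (z.2 - z.1))) ^ m = ∑ i ∈ Finset.range (m + 1),
        ((-1) ^ i * (m.choose i : ℂ)) * 𝓕 (kb s) (hd m (z.2 - z.1)) ^ i := by
      rw [sub_eq_neg_add, add_pow]
      refine Finset.sum_congr rfl fun i _ => ?_
      rw [one_pow, mul_one, neg_pow]
      ring
    rw [e2, Finset.sum_mul, Finset.mul_sum]
    exact Finset.sum_congr rfl fun i _ => by ring
  -- the terms with averages
  have hBq : ∀ ξ, ‖q ξ‖ ≤ B1 * B2 := by
    intro ξ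
    rw [hq]
    unfold pm
    rw [norm_mul, Complex.norm_real]
    exact mul_le_mul (hB1b _ A 1 ξ) (hB2b _ (by positivity)) (norm_nonneg _) hB1.le
  have hqloc : ∀ ξ, q ξ ≠ 0 → (1 - 2 / A ≤ ‖ξ‖ ^ 2 ∧ ‖ξ‖ ≤ 1) ∧
      ‖pr m ξ‖ ≤ 2 * l ∧ θ2 (‖pr m ξ‖ ^ 2 / l ^ 2) ≠ 0 := fun ξ h => pm_loc hψ2 hθ2 hA hl0 h
  have hM1 : ∀ i ξ, ‖Qj s q (i + 1) ξ‖ ≤ CS * (B1 * B2) / (A * s) := fun i ξ =>
    Qj_bdd hs0 (fun ζ => hsh A hA s hs0 q (B1 * B2) (by positivity) hBq
      (fun ξ h => ⟨(hqloc ξ h).1.1, (hqloc ξ h).1.2, by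
        have := (hqloc ξ h).2.1
        linarith⟩) ζ) i ξ
  have hterm : ∀ i, i < m → ‖J (i + 1)‖ₑ ≤ ENNReal.ofReal (CS * (B1 * B2) / (A * s)) *
      (ENNReal.ofReal (CG * K₀ * (min (1 / ((r / 3) * l)) l) ^ (1 - β)) *
        ∫⁻ x, ‖g x‖ₑ ^ (2 : ℝ) ∂μ) := by
    intro i hi
    set S : Set (E (m + 1)) := {ξ : E (m + 1) | |‖ξ‖ ^ 2 - 1| ≤ 1 / (r / 3) ∧ ‖pr m ξ‖ ≤ 2 * l ∧
        (l / 2 ≤ ‖pr m ξ‖ ∨ (r / 3) * l ^ 2 ≤ 16)} with hS
    have hSm : MeasurableSet S := by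
      refine (measurableSet_le (((measurable_norm.pow_const 2).sub_const 1).abs)
        measurable_const).inter ((measurableSet_le pr_cont.norm.measurable measurable_const).inter
        ((measurableSet_le measurable_const pr_cont.norm.measurable).union ?_))
      exact MeasurableSet.const _
    calc ‖J (i + 1)‖ₑ ≤ ∫⁻ ξ, ‖Qj s q (i + 1) ξ * (Fm g μ' ξ * conj (Fm g μ' ξ))‖ₑ :=
          enorm_integral_le_lintegral_enorm _
      _ ≤ ∫⁻ ξ, S.indicator (fun ξ => ENNReal.ofReal (CS * (B1 * B2) / (A * s)) *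
            ‖Fm g μ ξ‖ₑ ^ (2 : ℝ)) ξ := by
          refine lintegral_mono fun ξ => ?_
          by_cases h0 : Qj s q (i + 1) ξ = 0
          · rw [h0, zero_mul, enorm_zero]; exact zero_le
          · obtain ⟨ζ, hζ, hξζ, hpr⟩ := Qj_supp s (i + 1) ξ h0
            obtain ⟨⟨h1, h3⟩, hpl, hθn⟩ := hqloc ζ hζ
            rw [hpr] at hpl hθn
            have hir : ((i + 1 : ℕ) : ℝ) * s ≤ 1 / (10 * r) := by
              have hi' : ((i + 1 : ℕ) : ℝ) ≤ m := by exact_mod_cast hi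
              calc ((i + 1 : ℕ) : ℝ) * s ≤ m * s := by gcongr
                _ = 1 / (10 * r) := by rw [hs]; field_simp
            have h4 : ‖ξ - ζ‖ ≤ 1 / (10 * r) := hξζ.trans hir
            have h5 : |‖ξ‖ - ‖ζ‖| ≤ 1 / (10 * r) := (abs_norm_sub_norm_le ξ ζ).trans h4
            have h6 : 1 / (10 * r) ≤ 1 / 30 := by
              rw [div_le_div_iff₀ (by positivity) (by norm_num)]; linarith
            have h7 : 2 / A ≤ 2 / r := by gcongr
            have hξS : ξ ∈ S := by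
              refine ⟨?_, hpl, ?_⟩
              · change |‖ξ‖ ^ 2 - 1| ≤ 1 / (r / 3)
                have e1 : 1 / (r / 3) = 30 * (1 / (10 * r)) := by field_simp; norm_num
                have e2 : 2 / r = 20 * (1 / (10 * r)) := by field_simp; norm_num
                rw [e2] at h7
                rw [e1]
                obtain ⟨d, hd⟩ : ∃ d : ℝ, d = 1 / (10 * r) := ⟨_, rfl⟩
                rw [← hd] at h5 h6 h7 ⊢
                have hd0 : 0 ≤ d := by rw [hd]; positivity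
                have h8 := norm_nonneg ξ
                have h9 := norm_nonneg ζ
                obtain ⟨h10, h11⟩ := abs_le.1 h5
                have h12 : ‖ξ‖ ^ 2 - ‖ζ‖ ^ 2 = (‖ξ‖ - ‖ζ‖) * (‖ξ‖ + ‖ζ‖) := by ring
                have h13 : ‖ξ‖ + ‖ζ‖ ≤ 3 := by linarith
                rw [abs_le]
                constructor
                · nlinarith
                · nlinarith
              · rcases hθc with h | h
                · left
                  by_contra hc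
                  push Not at hc
                  apply hθn
                  have h14 : ‖pr m ξ‖ ^ 2 / l ^ 2 < 1 / 4 := by
                    rw [div_lt_iff₀ (by positivity)]
                    nlinarith [norm_nonneg (pr m ξ)]
                  change θ (‖pr m ξ‖ ^ 2 / l ^ 2) ^ 2 = 0
                  rw [h _ h14]
                  norm_num
                · right
                  have h15 : r * l ^ 2 ≤ A * l ^ 2 := by gcongr
                  have h16 : 0 ≤ r * l ^ 2 := by positivity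
                  linarith
            rw [indicator_of_mem hξS, enorm_mul, hFm ξ]
            refine mul_le_mul' ?_ (le_of_eq ?_)
            · rw [← ofReal_norm]
              exact ENNReal.ofReal_le_ofReal (hM1 i ξ)
            · rw [← ofReal_norm, ← ofReal_norm, norm_mul, RCLike.norm_conj,
                ENNReal.ofReal_rpow_of_nonneg (norm_nonneg _) (by norm_num)]
              congr 1
              rw [show (2 : ℝ) = ((2 : ℕ) : ℝ) by norm_num, Real.rpow_natCast, sq]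
      _ = ENNReal.ofReal (CS * (B1 * B2) / (A * s)) * ∫⁻ ξ in S, ‖Fm g μ ξ‖ₑ ^ (2 : ℝ) := by
          rw [lintegral_indicator hSm, lintegral_const_mul' _ _ ENNReal.ofReal_ne_top]
      _ ≤ _ := mul_le_mul' le_rfl ((hga β K₀ hβ0 hβ1 hK ν hν (r / 3) (by linarith) g hg).1 l hl0
          (by linarith))
  -- the remainder
  have hPb : ‖P‖ₑ ≤ ENNReal.ofReal (Ca / A * (r ^ (-(m : ℝ) / 2) * min 1 (l * r ^ (1 / 2 : ℝ)))) *
      (∫⁻ x, ‖g x‖ₑ ∂μ) ^ (2 : ℝ) := by
    rw [hP]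
    refine (enorm_integral_le_lintegral_enorm _).trans ?_
    have h1 : ∀ z : E (m + 1) × E (m + 1), ‖g z.1 * conj (g z.2) *
        ((1 - 𝓕 (kb s) (hd m (z.2 - z.1))) ^ m * 𝓕 q (z.2 - z.1))‖ₑ ≤
        ENNReal.ofReal (Ca / A * (r ^ (-(m : ℝ) / 2) * min 1 (l * r ^ (1 / 2 : ℝ)))) *
          (‖g z.1‖ₑ * ‖g z.2‖ₑ) := by
      intro z
      have h2 : ‖conj (g z.2)‖ₑ = ‖g z.2‖ₑ := by
        rw [← ofReal_norm, ← ofReal_norm, RCLike.norm_conj]
      rw [enorm_mul, enorm_mul, h2, mul_comm]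
      refine mul_le_mul' ?_ le_rfl
      rw [← ofReal_norm]
      refine ENNReal.ofReal_le_ofReal ?_
      rw [norm_mul, norm_pow]
      obtain ⟨w, hw⟩ : ∃ w, w = z.2 - z.1 := ⟨_, rfl⟩
      rw [← hw]
      obtain ⟨u, hu⟩ : ∃ u, u = hd m w := ⟨_, rfl⟩
      have h3 := kb_four (n := m) hs0 u
      obtain ⟨h4a, h4b⟩ := hkl A hA l hl0 hl8 w
      rw [← hu] at h4a h4b ⊢
      have h5 : 2 * Real.pi * s * ‖u‖ ≤ ‖u‖ / r := by
        rw [hs]
        have hpi := Real.pi_lt_four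
        have h6 : 2 * Real.pi * (1 / (10 * m * r)) ≤ 1 / r := by
          rw [mul_one_div, div_le_div_iff₀ (by positivity) hr0]
          nlinarith
        calc 2 * Real.pi * (1 / (10 * m * r)) * ‖u‖ ≤ 1 / r * ‖u‖ := by gcongr
          _ = ‖u‖ / r := by ring
      have h6 : ‖1 - 𝓕 (kb (n := m) s) u‖ ≤ min 2 (‖u‖ / r) :=
        h3.trans (min_le_min le_rfl h5)
      have hmin0 : 0 ≤ min 2 (‖u‖ / r) := le_min (by norm_num) (by positivity)
      have h6m : ‖1 - 𝓕 (kb (n := m) s) u‖ ^ m ≤ (min 2 (‖u‖ / r)) ^ m :=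
        pow_le_pow_left₀ (norm_nonneg _) h6 m
      have h7 := rem_ineq' (n := m) (a := (m : ℝ) / 2) (by positivity) (by linarith)
        (by linarith : 1 ≤ r) ‖u‖ (norm_nonneg u)
      have h8 := rem_ineq' (n := m) (a := ((m : ℝ) - 1) / 2) (by linarith) (by linarith)
        (by linarith : 1 ≤ r) ‖u‖ (norm_nonneg u)
      have e7 : -((m : ℝ) / 2) = -(m : ℝ) / 2 := by ring
      have e8 : -(((m : ℝ) - 1) / 2) = -((m : ℝ) - 1) / 2 := by ring
      rw [e7] at h7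
      rw [e8] at h8
      have h9 : ‖1 - 𝓕 (kb (n := m) s) u‖ ^ m * ‖𝓕 q w‖ ≤ Ca / A * (r ^ (-(m : ℝ) / 2) * 1) := by
        calc ‖1 - 𝓕 (kb (n := m) s) u‖ ^ m * ‖𝓕 q w‖ ≤
            (min 2 (‖u‖ / r)) ^ m * (CK / A * (1 + ‖u‖) ^ (-(m : ℝ) / 2)) :=
              mul_le_mul h6m h4a (norm_nonneg _) (by positivity)
          _ = CK / A * ((1 + ‖u‖) ^ (-(m : ℝ) / 2) * (min 2 (‖u‖ / r)) ^ m) := by ring
          _ ≤ CK / A * (2 ^ m * r ^ (-(m : ℝ) / 2)) := by gcongr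
          _ = _ := by rw [hCa]; ring
      have h10 : ‖1 - 𝓕 (kb (n := m) s) u‖ ^ m * ‖𝓕 q w‖ ≤
          Ca / A * (r ^ (-(m : ℝ) / 2) * (l * r ^ (1 / 2 : ℝ))) := by
        calc ‖1 - 𝓕 (kb (n := m) s) u‖ ^ m * ‖𝓕 q w‖ ≤
            (min 2 (‖u‖ / r)) ^ m * (CK * l / A * (1 + ‖u‖) ^ (-((m : ℝ) - 1) / 2)) :=
              mul_le_mul h6m h4b (norm_nonneg _) (by positivity)
          _ = CK * l / A * ((1 + ‖u‖) ^ (-((m : ℝ) - 1) / 2) * (min 2 (‖u‖ / r)) ^ m) := by ring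
          _ ≤ CK * l / A * (2 ^ m * r ^ (-((m : ℝ) - 1) / 2)) := by gcongr
          _ = _ := by
              have e9 : r ^ (-((m : ℝ) - 1) / 2) = r ^ (-(m : ℝ) / 2) * r ^ (1 / 2 : ℝ) := by
                rw [← Real.rpow_add hr0]
                congr 1
                ring
              rw [hCa, e9]
              ring
      rcases min_choice (1 : ℝ) (l * r ^ (1 / 2 : ℝ)) with h11 | h11
      · rw [h11]; exact h9
      · rw [h11]; exact h10
    refine (lintegral_mono h1).trans (le_of_eq ?_)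
    rw [lintegral_const_mul' _ _ ENNReal.ofReal_ne_top,
      lintegral_prod_mul hgm.enorm.aemeasurable hgm.enorm.aemeasurable, hi1]
    congr 1
    rw [show (2 : ℝ) = ((2 : ℕ) : ℝ) by norm_num, ENNReal.rpow_natCast, sq]
  -- the energy
  have hE : En (pm m ψ θ A l) g μ = ‖J 0‖ₑ := by
    have hqr : ∀ ξ, Qj s q 0 ξ * (Fm g μ' ξ * conj (Fm g μ' ξ)) =
        ((‖pm m ψ θ A l ξ * Fm g μ' ξ‖ ^ 2 : ℝ) : ℂ) := by
      intro ξ
      change q ξ * (Fm g μ' ξ * conj (Fm g μ' ξ)) = _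
      rw [Complex.mul_conj, Complex.normSq_eq_norm_sq, norm_mul, mul_pow, Complex.ofReal_mul,
        hq, hψ2d, hθ2d, pm_sq]
    have hint0 : Integrable (fun ξ => Qj s q 0 ξ * (Fm g μ' ξ * conj (Fm g μ' ξ))) := by
      have h2 : ∫⁻ x, ‖g x‖ₑ ∂μ' ≠ ∞ := by
        have h4 : Integrable g μ' :=
          Integrable.of_bound (C := M) hgm.aestronglyMeasurable (Eventually.of_forall hM)
        exact h4.2.ne
      refine (Qj_int s hqi 0).mul_bdd (c := (∫⁻ x, ‖g x‖ₑ ∂μ').toReal * (∫⁻ x, ‖g x‖ₑ ∂μ').toReal)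
        ?_ (Eventually.of_forall fun ξ => ?_)
      · exact (hFmeas.mul (Complex.continuous_conj.measurable.comp hFmeas)).aestronglyMeasurable
      · rw [norm_mul, RCLike.norm_conj]
        have h1 : ‖Fm g μ' ξ‖ ≤ (∫⁻ x, ‖g x‖ₑ ∂μ').toReal := by
          have h3 := fm_le μ' g ξ
          rw [← ofReal_norm] at h3
          exact (ENNReal.ofReal_le_iff_le_toReal h2).1 h3
        exact mul_le_mul h1 h1 (norm_nonneg _) ENNReal.toReal_nonneg
    have hint1 : Integrable (fun ξ => ‖pm m ψ θ A l ξ * Fm g μ' ξ‖ ^ 2) := by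
      refine hint0.re.congr (Eventually.of_forall fun ξ => ?_)
      change (Qj s q 0 ξ * (Fm g μ' ξ * conj (Fm g μ' ξ))).re = _
      rw [hqr ξ, Complex.ofReal_re]
    rw [hJ]
    simp only
    simp only [hqr]
    rw [integral_complex_ofReal, ← ofReal_norm, Complex.norm_real, Real.norm_of_nonneg
      (integral_nonneg fun ξ => by positivity),
      ofReal_integral_eq_lintegral_ofReal hint1 (Eventually.of_forall fun x => by positivity)]
    unfold En
    refine lintegral_congr fun ξ => ?_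
    rw [hFm ξ, ← ofReal_norm, ENNReal.ofReal_rpow_of_nonneg (norm_nonneg _) (by norm_num)]
    congr 1
    exact_mod_cast Real.rpow_natCast _ 2
  rw [hE]
  -- solve for `J 0`
  have hJ0 : J 0 = P - ∑ i ∈ Finset.range m,
      ((-1) ^ (i + 1) * (m.choose (i + 1) : ℂ)) * J (i + 1) := by
    rw [Finset.sum_range_succ'] at hsum
    rw [← hsum, pow_zero, Nat.choose_zero_right, Nat.cast_one, one_mul, one_mul]
    ring
  set X : ℝ≥0∞ := ENNReal.ofReal (CS * (B1 * B2) / (A * s)) *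
      (ENNReal.ofReal (CG * K₀ * (min (1 / ((r / 3) * l)) l) ^ (1 - β)) *
        ∫⁻ x, ‖g x‖ₑ ^ (2 : ℝ) ∂μ) with hX
  have hsum2 : ‖∑ i ∈ Finset.range m, ((-1) ^ (i + 1) * (m.choose (i + 1) : ℂ)) * J (i + 1)‖ₑ ≤
      ENNReal.ofReal (2 ^ m) * X := by
    have h1 : ∀ (s : Finset ℕ) (a : ℕ → ℂ), ‖∑ i ∈ s, a i‖ₑ ≤ ∑ i ∈ s, ‖a i‖ₑ := by
      intro s a
      classical
      induction s using Finset.induction_on with
      | empty => simp
      | insert i s hi ih =>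
        rw [Finset.sum_insert hi, Finset.sum_insert hi]
        exact (enorm_add_le _ _).trans (add_le_add le_rfl ih)
    refine (h1 _ _).trans ?_
    have h2 : ∀ i ∈ Finset.range m, ‖((-1) ^ (i + 1) * (m.choose (i + 1) : ℂ)) * J (i + 1)‖ₑ ≤
        (m.choose (i + 1) : ℝ≥0∞) * X := by
      intro i hi
      rw [enorm_mul]
      refine mul_le_mul' (le_of_eq ?_) (hterm i (Finset.mem_range.1 hi))
      rw [← ofReal_norm, norm_mul, norm_pow, norm_neg, norm_one, one_pow, one_mul,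
        Complex.norm_natCast, ENNReal.ofReal_natCast]
    refine (Finset.sum_le_sum h2).trans ?_
    rw [← Finset.sum_mul]
    refine mul_le_mul' ?_ le_rfl
    rw [← Nat.cast_sum]
    have h3 : ∑ i ∈ Finset.range m, m.choose (i + 1) ≤ 2 ^ m := by
      rw [← Nat.sum_range_choose m, Finset.sum_range_succ']
      exact Nat.le_add_right _ _
    have h4 : ENNReal.ofReal ((2 : ℝ) ^ m) = ((2 ^ m : ℕ) : ℝ≥0∞) := by
      rw [← ENNReal.ofReal_natCast]
      push_cast
      rfl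
    rw [h4]
    exact_mod_cast h3
  rw [hJ0]
  refine (enorm_sub_le).trans (add_le_add (hPb.trans ?_) (hsum2.trans ?_))
  · refine mul_le_mul' (ENNReal.ofReal_le_ofReal ?_) le_rfl
    have h0 : 0 ≤ min 1 (l * r ^ (1 / 2 : ℝ)) := le_min (by norm_num) (by positivity)
    gcongr
    linarith
  · rw [hX, ← mul_assoc, ← mul_assoc, ← ENNReal.ofReal_mul (by positivity),
      ← ENNReal.ofReal_mul (by positivity)]
    refine mul_le_mul' (ENNReal.ofReal_le_ofReal ?_) le_rfl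
    have hmin : 0 ≤ min (1 / (r * l)) l := le_min (by positivity) hl0.le
    have e1 : (min (1 / ((r / 3) * l)) l) ^ (1 - β) ≤ 3 * (min (1 / (r * l)) l) ^ (1 - β) := by
      have h1 : min (1 / ((r / 3) * l)) l ≤ 3 * min (1 / (r * l)) l := by
        have h2 : 1 / ((r / 3) * l) = 3 * (1 / (r * l)) := by
          field_simp
        rw [h2, mul_min_of_nonneg _ _ (by norm_num : (0 : ℝ) ≤ 3)]
        exact min_le_min le_rfl (by linarith)
      have h0 : 0 ≤ min (1 / ((r / 3) * l)) l := le_min (by positivity) hl0.le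
      calc (min (1 / ((r / 3) * l)) l) ^ (1 - β) ≤ (3 * min (1 / (r * l)) l) ^ (1 - β) :=
            Real.rpow_le_rpow h0 h1 (by linarith)
        _ = 3 ^ (1 - β) * (min (1 / (r * l)) l) ^ (1 - β) := Real.mul_rpow (by norm_num) hmin
        _ ≤ 3 * (min (1 / (r * l)) l) ^ (1 - β) := by
            have h3 : (3 : ℝ) ^ (1 - β) ≤ 3 ^ (1 : ℝ) :=
              Real.rpow_le_rpow_of_exponent_le (by norm_num) (by linarith)
            rw [Real.rpow_one] at h3
            gcongr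
    have e2 : 2 ^ m * (CS * (B1 * B2) / (A * s)) = 2 ^ m * (CS * (B1 * B2) * (10 * m)) * (r / A) := by
      rw [hs]
      field_simp
    have hz : 0 ≤ (min (1 / (r * l)) l) ^ (1 - β) := Real.rpow_nonneg hmin _
    calc 2 ^ m * (CS * (B1 * B2) / (A * s)) *
        (CG * K₀ * (min (1 / ((r / 3) * l)) l) ^ (1 - β)) ≤
        2 ^ m * (CS * (B1 * B2) / (A * s)) *
        (CG * K₀ * (3 * (min (1 / (r * l)) l) ^ (1 - β))) := by gcongr
      _ = Cb / A * (r * (min (1 / (r * l)) l) ^ (1 - β)) := by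
          rw [e2, hCb]
          ring
      _ ≤ _ := by
          gcongr
          linarith

end Pool.Agent.Y261.FD
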